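import Pool.Agent.H53.AEG.Core

/-!
Part (G): the automorphism group of a vertex transitive centrally symmetric neighborly complex on
eighteen vertices contains a group of order 18 acting regularly, which contains the involution.
-/

open MulAction

namespace Pool.Agent.H53.AEG

/-- The automorphism group of a set system. -/
def Aut (K : Finset (Finset (Fin 18))) : Subgroup (Equiv.Perm (Fin 18)) where
  carrier := {g | ∀ σ : Finset (Fin 18), σ ∈ K ↔ σ.image g ∈ K}
  one_mem' := by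
    intro σ
    simp
  mul_mem' := by
    intro g h hg hh σ
    rw [hh σ, hg (σ.image h), Finset.image_image]
    rfl
  inv_mem' := by
    intro g hg σ
    rw [hg (σ.image (g⁻¹ : Equiv.Perm (Fin 18))), Finset.image_image]
    have : (g ∘ (g⁻¹ : Equiv.Perm (Fin 18)) : Fin 18 → Fin 18) = id := by
      funext x
      simp
    rw [this, Finset.image_id]

theorem mem_Aut {K : Finset (Finset (Fin 18))} {g : Equiv.Perm (Fin 18)} :
    g ∈ Aut K ↔ ∀ σ : Finset (Fin 18), σ ∈ K ↔ σ.image g ∈ K := Iff.rfl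

/-- Orbits of a Sylow 3-subgroup of a transitive group of degree 18. -/
theorem nine_dvd_orbit (Γ : Subgroup (Equiv.Perm (Fin 18))) (htr : ∀ a b : Fin 18, ∃ g ∈ Γ, g a = b)
    (S : Sylow 3 Γ) (x : Fin 18) : 9 ∣ Nat.card (orbit (S : Subgroup Γ) x) := by
  haveI : Fact (Nat.Prime 3) := ⟨Nat.prime_three⟩
  haveI : IsPretransitive Γ (Fin 18) := ⟨fun a b => by
    obtain ⟨g, hg, hab⟩ := htr a b
    exact ⟨⟨g, hg⟩, hab⟩⟩
  set A : Subgroup Γ := (S : Subgroup Γ) with hA
  set B : Subgroup Γ := stabilizer Γ x with hB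
  have hBi : B.index = 18 := by
    rw [hB, index_stabilizer_of_transitive, Nat.card_eq_fintype_card, Fintype.card_fin]
  have h1 : (A ⊓ B).relIndex A * A.index = (A ⊓ B).relIndex B * B.index := by
    rw [Subgroup.relIndex_mul_index inf_le_left, Subgroup.relIndex_mul_index inf_le_right]
  rw [Subgroup.inf_relIndex_left, hBi] at h1
  have h2 : Nat.card (orbit A x) = B.relIndex A := by
    have h3 : stabilizer A x = B.subgroupOf A := by
      ext g
      rfl
    have h4 := index_stabilizer (G := A) (x := x)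
    rw [h3] at h4
    rw [Subgroup.relIndex, h4]
    rfl
  have h5 : ¬ 3 ∣ A.index := S.not_dvd_index
  have h6 : 9 ∣ B.relIndex A * A.index := by
    rw [h1]
    exact Dvd.dvd.mul_left (by norm_num) _
  have h7 : Nat.Coprime 9 A.index := by
    have : Nat.Coprime (3 ^ 2) A.index :=
      Nat.Coprime.pow_left 2 ((Nat.Prime.coprime_iff_not_dvd Nat.prime_three).2 h5)
    simpa using this
  rw [h2]
  exact h7.dvd_of_dvd_mul_right h6

/-- translation by one in the first coordinate, labels `3 x + y + 9 s`. -/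
def a1 : Fin 18 → Fin 18 := ![3, 4, 5, 6, 7, 8, 0, 1, 2, 12, 13, 14, 15, 16, 17, 9, 10, 11]

/-- translation by one in the second coordinate, labels `3 x + y + 9 s`. -/
def a2 : Fin 18 → Fin 18 := ![1, 2, 0, 4, 5, 3, 7, 8, 6, 10, 11, 9, 13, 14, 12, 16, 17, 15]

/-- digits for the label `3 x + y + 9 s`. -/
def dig (k : Fin 18) : Fin 3 × Fin 3 × Fin 2 :=
  (⟨k / 3 % 3, Nat.mod_lt _ (by norm_num)⟩, ⟨k % 3, Nat.mod_lt _ (by norm_num)⟩,
    ⟨k / 9, by omega⟩)

theorem dig_bij : Function.Bijective dig := by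
  rw [Fintype.bijective_iff_injective_and_card]
  exact ⟨by decide, by simp⟩

/-- digits of the cyclic label when `t ^ 3 = z ^ a`. -/
def cdig (a : Fin 3) (k : Fin 18) : Fin 3 × Fin 3 × Fin 2 :=
  (⟨k % 3, Nat.mod_lt _ (by norm_num)⟩, ⟨a * (k / 3) % 3, Nat.mod_lt _ (by norm_num)⟩,
    ⟨k % 2, Nat.mod_lt _ (by norm_num)⟩)

theorem cdig_bij (a : Fin 3) (ha : a ≠ 0) : Function.Bijective (cdig a) := by
  rw [Fintype.bijective_iff_injective_and_card]
  refine ⟨?_, by simp⟩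
  revert a
  decide

theorem iota_mod {ι : Equiv.Perm (Fin 18)} (hι2 : ∀ x, ι (ι x) = x) (n : ℕ) :
    ι ^ n = ι ^ (n % 2) := by
  have h : ι ^ 2 = 1 := by
    ext x
    rw [pow_two, Equiv.Perm.mul_apply, hι2]
    rfl
  conv_lhs => rw [← Nat.mod_add_div n 2, pow_add, pow_mul, h, one_pow, mul_one]

/-- automorphisms commute with the involution. -/
theorem aut_comm {K : Finset (Finset (Fin 18))} (hdown : ∀ σ ∈ K, ∀ τ : Finset (Fin 18), τ ⊆ σ → τ ∈ K)
    {ι : Equiv.Perm (Fin 18)} (hι2 : ∀ i, ι (ι i) = i) (hιf : ∀ i, ι i ≠ i)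
    (hιn : ∀ σ ∈ K, σ.Nonempty → σ.image ι ≠ σ)
    (h3 : ∀ τ : Finset (Fin 18), τ.card = 3 → (∀ i ∈ τ, ι i ∉ τ) → τ ∈ K)
    {g : Equiv.Perm (Fin 18)} (hg : g ∈ Aut K) (i : Fin 18) : ι (g i) = g (ι i) := by
  classical
  have hno : ∀ i, ({i, ι i} : Finset (Fin 18)) ∉ K := by
    intro i hi
    refine hιn _ hi ⟨i, by simp⟩ ?_
    rw [Finset.image_insert, Finset.image_singleton, hι2, Finset.pair_comm]
  have hyes : ∀ i j, i ≠ j → j ≠ ι i → ({i, j} : Finset (Fin 18)) ∈ K := by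
    intro i j hij hji
    have hne : ∃ c, c ∉ ({i, j, ι i, ι j} : Finset (Fin 18)) := by
      by_contra hcon
      push Not at hcon
      have h1 : (Finset.univ : Finset (Fin 18)) ⊆ {i, j, ι i, ι j} := fun c _ => hcon c
      have h2 := Finset.card_le_card h1
      have h4 := Finset.card_le_four (a := i) (b := j) (c := ι i) (d := ι j)
      rw [Finset.card_univ, Fintype.card_fin] at h2
      omega
    obtain ⟨c, hc⟩ := hne
    simp only [Finset.mem_insert, Finset.mem_singleton, not_or] at hc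
    obtain ⟨hci, hcj, hcii, hcij⟩ := hc
    have hjj : ι j ≠ i := fun h => hji (by rw [← h, hι2])
    have hc1 : ι c ≠ i := fun h => hcii (by rw [← h, hι2])
    have hc2 : ι c ≠ j := fun h => hcij (by rw [← h, hι2])
    refine hdown {i, j, c} (h3 _ ?_ ?_) _ ?_
    · rw [Finset.card_eq_three]
      exact ⟨i, j, c, hij, Ne.symm hci, Ne.symm hcj, rfl⟩
    · intro x hx
      simp only [Finset.mem_insert, Finset.mem_singleton] at hx ⊢
      rcases hx with rfl | rfl | rfl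
      · rintro (h | h | h)
        · exact hιf _ h
        · exact hji h.symm
        · exact hcii h.symm
      · rintro (h | h | h)
        · exact hjj h
        · exact hιf _ h
        · exact hcij h.symm
      · rintro (h | h | h)
        · exact hc1 h
        · exact hc2 h
        · exact hιf _ h
    · intro x hx
      simp only [Finset.mem_insert, Finset.mem_singleton] at hx ⊢
      tauto
  by_contra hne
  have h1 : ({g i, g (ι i)} : Finset (Fin 18)) ∈ K :=
    hyes _ _ (fun h => hιf i (g.injective h).symm) (fun h => hne h.symm)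
  refine hno i ((mem_Aut.1 hg _).2 ?_)
  rw [Finset.image_insert, Finset.image_singleton]
  exact h1

/-- The regular subgroup of order 18, in coordinates. -/
theorem group_part (K : Finset (Finset (Fin 18)))
    (hdown : ∀ σ ∈ K, ∀ τ : Finset (Fin 18), τ ⊆ σ → τ ∈ K)
    (ι : Equiv.Perm (Fin 18)) (hι2 : ∀ i, ι (ι i) = i) (hιf : ∀ i, ι i ≠ i)
    (hιK : ∀ σ ∈ K, σ.image ι ∈ K) (hιn : ∀ σ ∈ K, σ.Nonempty → σ.image ι ≠ σ)
    (h3 : ∀ τ : Finset (Fin 18), τ.card = 3 → (∀ i ∈ τ, ι i ∉ τ) → τ ∈ K)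
    (htr : ∀ a b : Fin 18, ∃ g : Equiv.Perm (Fin 18), g a = b ∧
      ∀ σ : Finset (Fin 18), σ ∈ K ↔ σ.image g ∈ K) :
    ∃ e : Equiv.Perm (Fin 18), (∀ i, e (ι i) = e i + 9) ∧
      ((∃ g ∈ Aut K, ∀ i, e (g i) = e i + 1) ∨
        (∃ g₁ ∈ Aut K, ∃ g₂ ∈ Aut K, (∀ i, e (g₁ i) = a1 (e i)) ∧ ∀ i, e (g₂ i) = a2 (e i))) := by
  classical
  haveI : Fact (Nat.Prime 3) := ⟨Nat.prime_three⟩
  have hcomm : ∀ g ∈ Aut K, ∀ i, ι (g i) = g (ι i) := fun g hg i =>
    aut_comm hdown hι2 hιf hιn h3 hg i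
  have hιA : ι ∈ Aut K := by
    intro σ
    refine ⟨fun h => hιK σ h, fun h => ?_⟩
    have h1 := hιK _ h
    rw [Finset.image_image] at h1
    have : (ι ∘ ι : Fin 18 → Fin 18) = id := by
      funext x
      exact hι2 x
    rwa [this, Finset.image_id] at h1
  obtain ⟨S⟩ : Nonempty (Sylow 3 (Aut K)) := inferInstance
  have horb := nine_dvd_orbit (Aut K) (fun a b => by
    obtain ⟨g, hg, hgK⟩ := htr a b
    exact ⟨g, hgK, hg⟩) S
  obtain ⟨z, t, hz3, htz, ⟨a, ha⟩, hbij⟩ := core (X := Fin 18) (G := (S : Subgroup (Aut K)))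
    (by simp) S.isPGroup' (ι := ι) hι2 hιf
    (fun g x => hcomm ((g : Aut K) : Equiv.Perm (Fin 18)) (g : Aut K).2 x) horb
    (fun g hg => by
      apply Subtype.ext
      apply Subtype.ext
      ext x
      have := hg x
      exact congrArg Fin.val this) 0
  set T : Equiv.Perm (Fin 18) := ((t : Aut K) : Equiv.Perm (Fin 18)) with hT
  set Z : Equiv.Perm (Fin 18) := ((z : Aut K) : Equiv.Perm (Fin 18)) with hZ
  have hTK : T ∈ Aut K := (t : Aut K).2
  have hZK : Z ∈ Aut K := (z : Aut K).2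
  have hcoe : ∀ (p : (S : Subgroup (Aut K))) (n : ℕ), (((p ^ n : (S : Subgroup (Aut K))) : Aut K) :
      Equiv.Perm (Fin 18)) = ((p : Aut K) : Equiv.Perm (Fin 18)) ^ n := by
    intro p n
    simp
  have hsm : ∀ (p : (S : Subgroup (Aut K))) (x : Fin 18),
      p • x = ((p : Aut K) : Equiv.Perm (Fin 18)) x := fun p x => rfl
  have hZ3 : Z ^ 3 = 1 := by
    rw [hZ, ← hcoe, hz3]
    rfl
  have hT3 : T ^ 3 = Z ^ (a : ℕ) := by
    rw [hT, hZ, ← hcoe, ha, hcoe]
  have hTZ : T * Z = Z * T := by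
    have := congrArg (fun p : (S : Subgroup (Aut K)) => ((p : Aut K) : Equiv.Perm (Fin 18))) htz
    simpa using this
  have hιT : ι * T = T * ι := by
    ext x
    rw [Equiv.Perm.mul_apply, Equiv.Perm.mul_apply, hcomm T hTK]
  have hιZ : ι * Z = Z * ι := by
    ext x
    rw [Equiv.Perm.mul_apply, Equiv.Perm.mul_apply, hcomm Z hZK]
  set Φ : Fin 3 × Fin 3 × Fin 2 → Fin 18 := fun q =>
    (ι ^ (q.2.2 : ℕ) * T ^ (q.1 : ℕ) * Z ^ (q.2.1 : ℕ)) 0 with hΦ
  have hΦbij : Function.Bijective Φ := by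
    convert hbij using 2 with q
    rw [hsm, hsm, hcoe, hcoe]
    rfl
  by_cases ha0 : a = 0
  · -- elementary abelian case
    subst ha0
    have hT3' : T ^ 3 = 1 := by simpa using hT3
    have e1 : ∀ x y s, T (Φ (x, y, s)) = Φ (x + 1, y, s) := by
      intro x y s
      have h1 : T * (ι ^ (s : ℕ) * T ^ (x : ℕ) * Z ^ (y : ℕ))
          = ι ^ (s : ℕ) * T ^ ((x : ℕ) + 1) * Z ^ (y : ℕ) := by
        have c1 : T * ι ^ (s : ℕ) = ι ^ (s : ℕ) * T :=
          ((show Commute T ι from hιT.symm).pow_right _)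
        rw [← mul_assoc, ← mul_assoc, c1, pow_succ', mul_assoc (ι ^ (s : ℕ)) T (T ^ (x : ℕ))]
      have h2 : T (Φ (x, y, s)) = (ι ^ (s : ℕ) * T ^ ((x : ℕ) + 1) * Z ^ (y : ℕ)) 0 := by
        rw [← h1]
        rfl
      rw [h2]
      have h4 : T ^ ((x : ℕ) + 1) = T ^ ((x + 1 : Fin 3) : ℕ) := by
        fin_cases x
        · rfl
        · rfl
        · exact hT3'
      rw [h4]
    have e2 : ∀ x y s, Z (Φ (x, y, s)) = Φ (x, y + 1, s) := by
      intro x y s
      have h1 : Z * (ι ^ (s : ℕ) * T ^ (x : ℕ) * Z ^ (y : ℕ))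
          = ι ^ (s : ℕ) * T ^ (x : ℕ) * Z ^ ((y : ℕ) + 1) := by
        have c1 : Commute Z (ι ^ (s : ℕ)) := (show Commute Z ι from hιZ.symm).pow_right _
        have c2 : Commute Z (T ^ (x : ℕ)) := (show Commute Z T from hTZ.symm).pow_right _
        rw [← mul_assoc, (c1.mul_right c2).eq, mul_assoc _ Z, ← pow_succ']
      have h2 : Z (Φ (x, y, s)) = (ι ^ (s : ℕ) * T ^ (x : ℕ) * Z ^ ((y : ℕ) + 1)) 0 := by
        rw [← h1]
        rfl
      rw [h2]
      have h4 : Z ^ ((y : ℕ) + 1) = Z ^ ((y + 1 : Fin 3) : ℕ) := by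
        fin_cases y
        · rfl
        · rfl
        · exact hZ3
      rw [h4]
    have e3 : ∀ x y s, ι (Φ (x, y, s)) = Φ (x, y, s + 1) := by
      intro x y s
      have h2 : ι (Φ (x, y, s)) = (ι ^ ((s : ℕ) + 1) * T ^ (x : ℕ) * Z ^ (y : ℕ)) 0 := by
        rw [pow_succ', mul_assoc ι, mul_assoc ι]
        rfl
      rw [h2, iota_mod hι2]
      have h4 : ((s : ℕ) + 1) % 2 = ((s + 1 : Fin 2) : ℕ) := by
        fin_cases s <;> rfl
      rw [h4]
    set E : Fin 18 ≃ Fin 18 := Equiv.ofBijective (Φ ∘ dig) (hΦbij.comp dig_bij) with hE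
    have hEk : ∀ k, E k = Φ (dig k) := fun k => rfl
    refine ⟨E.symm, ?_, Or.inr ⟨T, hTK, Z, hZK, ?_, ?_⟩⟩
    · intro i
      obtain ⟨k, rfl⟩ := E.surjective i
      rw [Equiv.symm_apply_apply, Equiv.symm_apply_eq, hEk, hEk]
      have : dig (k + 9) = ((dig k).1, (dig k).2.1, (dig k).2.2 + 1) := by
        revert k
        decide
      rw [this, ← e3]
    · intro i
      obtain ⟨k, rfl⟩ := E.surjective i
      rw [Equiv.symm_apply_apply, Equiv.symm_apply_eq, hEk, hEk]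
      have : dig (a1 k) = ((dig k).1 + 1, (dig k).2.1, (dig k).2.2) := by
        revert k
        decide
      rw [this, ← e1]
    · intro i
      obtain ⟨k, rfl⟩ := E.surjective i
      rw [Equiv.symm_apply_apply, Equiv.symm_apply_eq, hEk, hEk]
      have : dig (a2 k) = ((dig k).1, (dig k).2.1 + 1, (dig k).2.2) := by
        revert k
        decide
      rw [this, ← e2]
  · -- cyclic case
    have hT9 : T ^ 9 = 1 := by
      have : T ^ 9 = (T ^ 3) ^ 3 := by rw [← pow_mul]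
      rw [this, hT3, ← pow_mul, mul_comm, pow_mul, hZ3, one_pow]
    have hι2' : ι ^ 2 = 1 := by
      ext x
      rw [pow_two, Equiv.Perm.mul_apply, hι2]
      rfl
    set Ψ : ℕ → Fin 18 := fun n => (ι ^ n * T ^ n) 0 with hΨ
    have hper : ∀ n, Ψ (n % 18) = Ψ n := by
      intro n
      have h1 : ι ^ n = ι ^ (n % 18) := by
        conv_lhs => rw [← Nat.mod_add_div n 18, pow_add, show 18 * (n / 18) = 2 * (9 * (n / 18)) by ring,
          pow_mul, hι2', one_pow, mul_one]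
      have h2 : T ^ n = T ^ (n % 18) := by
        conv_lhs => rw [← Nat.mod_add_div n 18, pow_add, show 18 * (n / 18) = 9 * (2 * (n / 18)) by ring,
          pow_mul, hT9, one_pow, mul_one]
      simp only [hΨ]
      rw [← h1, ← h2]
    have hΨΦ : ∀ k : Fin 18, Ψ k = Φ (cdig a k) := by
      intro k
      have h1 : T ^ (k : ℕ) = T ^ ((k : ℕ) % 3) * Z ^ ((a : ℕ) * ((k : ℕ) / 3) % 3) := by
        have h2 : Z ^ ((a : ℕ) * ((k : ℕ) / 3) % 3) = Z ^ ((a : ℕ) * ((k : ℕ) / 3)) := by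
          conv_rhs => rw [← Nat.mod_add_div ((a : ℕ) * ((k : ℕ) / 3)) 3, pow_add, pow_mul, hZ3,
            one_pow, mul_one]
        rw [h2, pow_mul, ← hT3, ← pow_mul, ← pow_add, Nat.mod_add_div]
      have h3 : ι ^ (k : ℕ) = ι ^ ((k : ℕ) % 2) := iota_mod hι2 _
      simp only [hΨ, hΦ, cdig]
      rw [h1, h3, mul_assoc]
    set E : Fin 18 ≃ Fin 18 := Equiv.ofBijective (fun k : Fin 18 => Ψ k) (by
      have : (fun k : Fin 18 => Ψ k) = Φ ∘ cdig a := by
        funext k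
        exact hΨΦ k
      rw [this]
      exact hΦbij.comp (cdig_bij a ha0)) with hE
    have hEk : ∀ k : Fin 18, E k = Ψ k := fun k => rfl
    refine ⟨E.symm, ?_, Or.inl ⟨T * ι, (Aut K).mul_mem hTK hιA, ?_⟩⟩
    · intro i
      obtain ⟨k, rfl⟩ := E.surjective i
      rw [Equiv.symm_apply_apply, Equiv.symm_apply_eq, hEk, hEk, Fin.val_add]
      have h9 : ((9 : Fin 18) : ℕ) = 9 := rfl
      rw [h9, hper]
      simp only [hΨ]
      have h1 : ι ^ ((k : ℕ) + 9) = ι * ι ^ (k : ℕ) := by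
        rw [pow_add, show (9 : ℕ) = 2 * 4 + 1 by norm_num, pow_add, pow_mul, hι2', one_pow, one_mul,
          pow_one, ← pow_succ, ← pow_succ']
      have h2 : T ^ ((k : ℕ) + 9) = T ^ (k : ℕ) := by
        rw [pow_add, hT9, mul_one]
      rw [h1, h2, mul_assoc]
      rfl
    · intro i
      obtain ⟨k, rfl⟩ := E.surjective i
      rw [Equiv.symm_apply_apply, Equiv.symm_apply_eq, hEk, hEk, Fin.val_add]
      have h9 : ((1 : Fin 18) : ℕ) = 1 := rfl
      rw [h9, hper]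
      simp only [hΨ]
      have h1 : ι ^ ((k : ℕ) + 1) * T ^ ((k : ℕ) + 1) = T * ι * (ι ^ (k : ℕ) * T ^ (k : ℕ)) := by
        have c1 : Commute T (ι ^ ((k : ℕ) + 1)) :=
          (show Commute T ι from hιT.symm).pow_right _
        rw [pow_succ' T, ← mul_assoc, ← c1.eq, pow_succ' ι, mul_assoc, mul_assoc, mul_assoc]
      rw [h1]
      rfl

/-- The same statement for the complex in the new labels. -/
theorem group_part' (K : Finset (Finset (Fin 18)))
    (hdown : ∀ σ ∈ K, ∀ τ : Finset (Fin 18), τ ⊆ σ → τ ∈ K)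
    (ι : Equiv.Perm (Fin 18)) (hι2 : ∀ i, ι (ι i) = i) (hιf : ∀ i, ι i ≠ i)
    (hιK : ∀ σ ∈ K, σ.image ι ∈ K) (hιn : ∀ σ ∈ K, σ.Nonempty → σ.image ι ≠ σ)
    (h3 : ∀ τ : Finset (Fin 18), τ.card = 3 → (∀ i ∈ τ, ι i ∉ τ) → τ ∈ K)
    (htr : ∀ a b : Fin 18, ∃ g : Equiv.Perm (Fin 18), g a = b ∧
      ∀ σ : Finset (Fin 18), σ ∈ K ↔ σ.image g ∈ K) :
    ∃ (e : Equiv.Perm (Fin 18)) (K' : Finset (Finset (Fin 18))),
      (∀ σ : Finset (Fin 18), σ ∈ K ↔ σ.image e ∈ K') ∧
      (∀ σ : Finset (Fin 18), σ ∈ K' ↔ σ.image e.symm ∈ K) ∧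
      (∀ i, e (ι i) = e i + 9) ∧
      (∀ σ : Finset (Fin 18), σ ∈ K' ↔ σ.image (fun i => i + 9) ∈ K') ∧
      ((∀ σ : Finset (Fin 18), σ ∈ K' ↔ σ.image (fun i => i + 1) ∈ K') ∨
        ((∀ σ : Finset (Fin 18), σ ∈ K' ↔ σ.image a1 ∈ K') ∧
          (∀ σ : Finset (Fin 18), σ ∈ K' ↔ σ.image a2 ∈ K'))) := by
  classical
  obtain ⟨e, he, hor⟩ := group_part K hdown ι hι2 hιf hιK hιn h3 htr
  have hmem : ∀ σ : Finset (Fin 18), σ ∈ K.image (fun σ => σ.image e) ↔ σ.image e.symm ∈ K := by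
    intro σ
    rw [Finset.mem_image]
    constructor
    · rintro ⟨τ, hτ, rfl⟩
      rw [Finset.image_image]
      simpa using hτ
    · intro h
      refine ⟨_, h, ?_⟩
      rw [Finset.image_image]
      simp
  have hmem' : ∀ σ : Finset (Fin 18), σ ∈ K ↔ σ.image e ∈ K.image (fun σ => σ.image e) := by
    intro σ
    rw [hmem, Finset.image_image]
    simp
  have htrans : ∀ (g : Equiv.Perm (Fin 18)) (f : Fin 18 → Fin 18), g ∈ Aut K →
      (∀ i, e (g i) = f (e i)) → ∀ σ : Finset (Fin 18), σ ∈ K.image (fun σ => σ.image e) ↔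
        σ.image f ∈ K.image (fun σ => σ.image e) := by
    intro g f hg hf σ
    rw [hmem, hmem, mem_Aut.1 hg, Finset.image_image, Finset.image_image]
    have : (g ∘ e.symm : Fin 18 → Fin 18) = e.symm ∘ f := by
      funext x
      rw [Function.comp_apply, Function.comp_apply, Equiv.eq_symm_apply, hf,
        Equiv.apply_symm_apply]
    rw [this]
  have hιA : ι ∈ Aut K := by
    intro σ
    refine ⟨fun h => hιK σ h, fun h => ?_⟩
    have h1 := hιK _ h
    rw [Finset.image_image] at h1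
    have : (ι ∘ ι : Fin 18 → Fin 18) = id := by
      funext x
      exact hι2 x
    rwa [this, Finset.image_id] at h1
  refine ⟨e, K.image (fun σ => σ.image e), hmem', hmem, he, htrans ι _ hιA he, ?_⟩
  rcases hor with ⟨g, hg, hge⟩ | ⟨g₁, hg₁, g₂, hg₂, h1, h2⟩
  · exact Or.inl (htrans g _ hg hge)
  · exact Or.inr ⟨htrans g₁ _ hg₁ h1, htrans g₂ _ hg₂ h2⟩

end Pool.Agent.H53.AEG
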