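import Pool.Agent.H23.LZ.Defs
import Pool.Agent.H53.AEG.Group

/-!
The counterexample `d = 6`, `v = 9`: reduction of the frozen statement to two cyclic cases.
-/

namespace Pool.Agent.H53.AEG

open H40.VT H23.LZ

/-- the antipodal map -/
def α9 : Equiv.Perm (Fin 18) := Equiv.addRight 9

theorem α9_apply (i : Fin 18) : α9 i = i + 9 := rfl

/-- relabelling of the vertices: the realizations are homeomorphic -/
theorem re_relabel {N : ℕ} (e : Equiv.Perm (Fin N)) (K K' : Finset (Finset (Fin N)))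
    (h : ∀ σ : Finset (Fin N), σ ∈ K ↔ σ.image e ∈ K')
    (h' : ∀ σ : Finset (Fin N), σ ∈ K' ↔ σ.image e.symm ∈ K) : Nonempty (Re K' ≃ₜ Re K) := by
  classical
  let L : EuclideanSpace ℝ (Fin N) ≃ₗᵢ[ℝ] EuclideanSpace ℝ (Fin N) :=
    LinearIsometryEquiv.piLpCongrLeft 2 ℝ ℝ e
  have hL : ∀ i : Fin N, L (EuclideanSpace.single i (1 : ℝ)) = EuclideanSpace.single (e i) 1 := by
    intro i
    exact LinearIsometryEquiv.piLpCongrLeft_single (p := 2) (𝕜 := ℝ) (E := ℝ) e i (1 : ℝ)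
  have hone : ∀ σ : Finset (Fin N), L '' (convexHull ℝ
      ((fun i : Fin N => EuclideanSpace.single i (1 : ℝ)) '' (↑σ : Set (Fin N)))) =
      convexHull ℝ ((fun i : Fin N => EuclideanSpace.single i (1 : ℝ)) ''
        (↑(σ.image e) : Set (Fin N))) := by
    intro σ
    have h1 := LinearMap.image_convexHull (L.toLinearEquiv.toLinearMap)
      ((fun i : Fin N => EuclideanSpace.single i (1 : ℝ)) '' (↑σ : Set (Fin N)))
    have h2 : (L.toLinearEquiv.toLinearMap : EuclideanSpace ℝ (Fin N) → EuclideanSpace ℝ (Fin N))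
      = L := rfl
    rw [h2] at h1
    rw [h1]
    congr 1
    rw [Finset.coe_image, Set.image_image, Set.image_image]
    refine Set.image_congr fun i _ => hL i
  have himg : L '' (Re K) = Re K' := by
    unfold Re
    rw [Set.image_iUnion₂]
    simp only [hone]
    ext x
    simp only [Set.mem_iUnion, exists_prop]
    constructor
    · rintro ⟨σ, hσ, hx⟩
      exact ⟨σ.image e, (h σ).1 hσ, hx⟩
    · rintro ⟨σ, hσ, hx⟩
      refine ⟨σ.image e.symm, (h' σ).1 hσ, ?_⟩
      rw [Finset.image_image]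
      have : (e ∘ e.symm : Fin N → Fin N) = id := by
        funext x
        simp
      rw [this, Finset.image_id]
      exact hx
  exact ⟨(Homeomorph.setCongr himg.symm).trans (L.toHomeomorph.image (Re K)).symm⟩

/-- The reduction. -/
theorem glue
    (c18 : ∀ K : Finset (Finset (Fin 18)), Hyp K α9 →
      (∀ σ : Finset (Fin 18), σ ∈ K ↔ σ.image (fun i => i + 1) ∈ K) → False)
    (c33 : ∀ K : Finset (Finset (Fin 18)), Hyp K α9 →
      (∀ σ : Finset (Fin 18), σ ∈ K ↔ σ.image a1 ∈ K) →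
      (∀ σ : Finset (Fin 18), σ ∈ K ↔ σ.image a2 ∈ K) → False) :
    ¬ (∀ d : ℕ, 2 ≤ d → Even d → ∀ v : ℕ, d ≤ v →
    ∃ K : Finset (Finset (Fin (2 * v))),
      (∀ σ ∈ K, ∀ τ : Finset (Fin (2 * v)), τ ⊆ σ → τ ∈ K) ∧
      (∀ i : Fin (2 * v), ({i} : Finset (Fin (2 * v))) ∈ K) ∧
      Nonempty (↥(⋃ σ ∈ K, convexHull ℝ
          ((fun i : Fin (2 * v) => EuclideanSpace.single i (1 : ℝ)) '' (↑σ : Set (Fin (2 * v)))))
        ≃ₜ Metric.sphere (0 : EuclideanSpace ℝ (Fin d)) 1) ∧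
      (∃ ι : Equiv.Perm (Fin (2 * v)),
        (∀ i, ι (ι i) = i) ∧ (∀ i, ι i ≠ i) ∧
        (∀ σ ∈ K, σ.image ι ∈ K) ∧
        (∀ σ ∈ K, σ.Nonempty → σ.image ι ≠ σ) ∧
        (∀ τ : Finset (Fin (2 * v)), τ.card = d / 2 → (∀ i ∈ τ, ι i ∉ τ) → τ ∈ K)) ∧
      (∀ a b : Fin (2 * v), ∃ g : Equiv.Perm (Fin (2 * v)), g a = b ∧
        ∀ σ : Finset (Fin (2 * v)), σ ∈ K ↔ σ.image g ∈ K)) := by
  classical
  intro H
  obtain ⟨K₀, hdown₀, hvert₀, hsph₀, hrest₀, htr₀⟩ :=
    H 6 (by norm_num) (by decide) 9 (by norm_num)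
  obtain ⟨ι₀, hι2₀, hιf₀, hιK₀, hιn₀, h3₀⟩ := hrest₀
  -- everything over `Fin 18`
  have key : ∀ (K : Finset (Finset (Fin 18))) (ι : Equiv.Perm (Fin 18)),
      (∀ σ ∈ K, ∀ τ : Finset (Fin 18), τ ⊆ σ → τ ∈ K) →
      (∀ i : Fin 18, ({i} : Finset (Fin 18)) ∈ K) →
      Nonempty (↥(Re K) ≃ₜ Metric.sphere (0 : EuclideanSpace ℝ (Fin 6)) 1) →
      (∀ i, ι (ι i) = i) → (∀ i, ι i ≠ i) → (∀ σ ∈ K, σ.image ι ∈ K) →
      (∀ σ ∈ K, σ.Nonempty → σ.image ι ≠ σ) →
      (∀ τ : Finset (Fin 18), τ.card = 3 → (∀ i ∈ τ, ι i ∉ τ) → τ ∈ K) →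
      (∀ a b : Fin 18, ∃ g : Equiv.Perm (Fin 18), g a = b ∧
        ∀ σ : Finset (Fin 18), σ ∈ K ↔ σ.image g ∈ K) → False := by
    intro K ι hdown hvert hsph hι2 hιf hιK hιn h3 htr
    obtain ⟨e, K', hK, hK', hanti, hα, hor⟩ := group_part' K hdown ι hι2 hιf hιK hιn h3 htr
    have hdown' : DC K' := by
      intro σ hσ τ hτ
      rw [hK'] at hσ ⊢
      exact hdown _ hσ _ (Finset.image_subset_image hτ)
    have hyp : Hyp K' α9 := by
      refine ⟨⟨hdown', ?_, ?_⟩, ?_, ?_, ?_, ?_, ?_⟩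
      · rw [hK', Finset.image_empty]
        exact hdown _ (hvert 0) _ (Finset.empty_subset _)
      · obtain ⟨φ⟩ := hsph
        obtain ⟨ψ⟩ := re_relabel e K K' hK hK'
        exact ⟨ψ.trans φ⟩
      · decide
      · decide
      · exact hα
      · intro σ hσ i hi hi9
        have hp : ({i, α9 i} : Finset (Fin 18)) ∈ K' := by
          refine hdown' σ hσ _ ?_
          intro x hx
          rw [Finset.mem_insert, Finset.mem_singleton] at hx
          rcases hx with rfl | rfl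
          · exact hi
          · exact hi9
        rw [hK'] at hp
        obtain ⟨j, rfl⟩ := e.surjective i
        have h9 : α9 (e j) = e (ι j) := (hanti j).symm
        rw [h9, Finset.image_insert, Finset.image_singleton, Equiv.symm_apply_apply,
          Equiv.symm_apply_apply] at hp
        refine hιn _ hp ⟨j, Finset.mem_insert_self _ _⟩ ?_
        rw [Finset.image_insert, Finset.image_singleton, hι2]
        exact Finset.pair_comm _ _
      · intro τ hτ hn
        rw [hK']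
        refine h3 _ ?_ ?_
        · rw [Finset.card_image_of_injective _ e.symm.injective, hτ]
        · intro i hi hi'
          rw [Finset.mem_image] at hi hi'
          obtain ⟨a, ha, rfl⟩ := hi
          obtain ⟨b, hb, hb'⟩ := hi'
          refine hn a ha ?_
          have h1 := hanti (e.symm a)
          rw [← hb', Equiv.apply_symm_apply, Equiv.apply_symm_apply] at h1
          rw [α9_apply, ← h1]
          exact hb
    rcases hor with h | ⟨h1, h2⟩
    · exact c18 K' hyp h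
    · exact c33 K' hyp h1 h2
  exact key K₀ ι₀ hdown₀ hvert₀ hsph₀ hι2₀ hιf₀ hιK₀ hιn₀ h3₀ htr₀

end Pool.Agent.H53.AEG
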