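import Mathlib

/-!
A group of 3-power order acting faithfully on 18 points, with all orbits divisible by nine and
commuting with a fixed point free involution, contains a group of order nine which is semiregular.
-/

open MulAction

namespace Pool.Agent.H53.AEG

variable {X : Type} [Fintype X] [DecidableEq X] {G : Type} [Group G] [Finite G] [MulAction G X]

/-- orbits have exactly nine points. -/
theorem orbit_nine (hX : Fintype.card X = 18) (hP : IsPGroup 3 G) (x : X)
    (h9 : 9 ∣ Nat.card (orbit G x)) : Nat.card (orbit G x) = 9 := by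
  haveI : Fact (Nat.Prime 3) := ⟨Nat.prime_three⟩
  obtain ⟨n, hn⟩ := hP.card_orbit x
  have hle : Nat.card (orbit G x) ≤ 18 := by
    rw [← hX, ← Nat.card_eq_fintype_card]
    exact Nat.card_le_card_of_injective (fun y : orbit G x => (y : X)) Subtype.val_injective
  rw [hn] at h9 hle ⊢
  have h1 : n < 3 := by
    by_contra h
    have : 3 ^ 3 ≤ 3 ^ n := Nat.pow_le_pow_right (by norm_num) (by omega)
    omega
  interval_cases n
  · omega
  · omega
  · rfl

/-- elements of 3-groups: an even power trick. -/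
theorem odd_pow (hP : IsPGroup 3 G) (p : G) : ∃ m : ℕ, p = (p ^ 2) ^ m := by
  obtain ⟨k, hk⟩ := isPGroup_iff_pow_pow_eq_one.1 hP p
  have hodd : Odd (3 ^ k) := Odd.pow (by decide)
  obtain ⟨m, hm⟩ := hodd
  refine ⟨m + 1, ?_⟩
  rw [← pow_mul]
  have : 2 * (m + 1) = 3 ^ k + 1 := by omega
  rw [this, pow_succ, hk, one_mul]

theorem odd_fix (hP : IsPGroup 3 G) (p : G) (x : X) (h : (p ^ 2) • x = x) : p • x = x := by
  obtain ⟨m, hm⟩ := odd_pow hP p
  have h2 : ∀ j : ℕ, ((p ^ 2) ^ j) • x = x := by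
    intro j
    induction j with
    | zero => simp
    | succ j ih => rw [pow_succ, mul_smul, h, ih]
  rw [hm]
  exact h2 m

/-- no group element maps a point to its antipode. -/
theorem no_anti (hP : IsPGroup 3 G) {ι : Equiv.Perm X} (hι2 : ∀ x, ι (ι x) = x)
    (hιf : ∀ x, ι x ≠ x) (hc : ∀ (g : G) x, ι (g • x) = g • ι x) (p : G) (x : X) :
    p • x ≠ ι x := by
  intro h
  have h2 : (p ^ 2) • x = x := by
    rw [pow_two, mul_smul, h, ← hc, h, hι2]
  exact hιf x ((h.symm.trans (odd_fix hP p x h2)))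

theorem cover (hX : Fintype.card X = 18) (hP : IsPGroup 3 G) {ι : Equiv.Perm X}
    (hι2 : ∀ x, ι (ι x) = x) (hιf : ∀ x, ι x ≠ x) (hc : ∀ (g : G) x, ι (g • x) = g • ι x)
    (horb : ∀ x : X, 9 ∣ Nat.card (orbit G x)) (y w : X) :
    ∃ p : G, w = p • y ∨ w = ι (p • y) := by
  classical
  let F : (orbit G y) ⊕ (orbit G y) → X := Sum.elim (fun a => (a : X)) (fun a => ι (a : X))
  have hinj : Function.Injective F := by
    rintro (⟨a, ga, rfl⟩ | ⟨a, ga, rfl⟩) (⟨b, gb, rfl⟩ | ⟨b, gb, rfl⟩) h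
    · simp only [F, Sum.elim_inl] at h
      rw [Sum.inl.injEq]
      exact Subtype.ext h
    · exfalso
      simp only [F, Sum.elim_inl, Sum.elim_inr] at h
      refine no_anti hP hι2 hιf hc (gb⁻¹ * ga) y ?_
      rw [mul_smul]
      have : ga • y = gb • ι y := by rw [← hc]; exact h
      rw [this, inv_smul_smul]
    · exfalso
      simp only [F, Sum.elim_inl, Sum.elim_inr] at h
      refine no_anti hP hι2 hιf hc (ga⁻¹ * gb) y ?_
      rw [mul_smul]
      have : gb • y = ga • ι y := by rw [← hc]; exact h.symm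
      rw [this, inv_smul_smul]
    · simp only [F, Sum.elim_inr] at h
      rw [Sum.inr.injEq]
      exact Subtype.ext (ι.injective h)
  have hcard : Nat.card ((orbit G y) ⊕ (orbit G y)) = Nat.card X := by
    rw [Nat.card_sum, orbit_nine hX hP y (horb y), Nat.card_eq_fintype_card, hX]
  have hbij : Function.Bijective F := by
    haveI : Finite X := inferInstance
    haveI := Fintype.ofFinite (orbit G y)
    rw [Fintype.bijective_iff_injective_and_card]
    refine ⟨hinj, ?_⟩
    rw [← Nat.card_eq_fintype_card, ← Nat.card_eq_fintype_card]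
    exact hcard
  obtain ⟨a, ha⟩ := hbij.2 w
  rcases a with ⟨a, ga, rfl⟩ | ⟨a, ga, rfl⟩
  · exact ⟨ga, Or.inl ha.symm⟩
  · exact ⟨ga, Or.inr ha.symm⟩

/-- a central element with a fixed point is trivial. -/
theorem central_free (hX : Fintype.card X = 18) (hP : IsPGroup 3 G) {ι : Equiv.Perm X}
    (hι2 : ∀ x, ι (ι x) = x) (hιf : ∀ x, ι x ≠ x) (hc : ∀ (g : G) x, ι (g • x) = g • ι x)
    (horb : ∀ x : X, 9 ∣ Nat.card (orbit G x)) (hfaith : ∀ g : G, (∀ x : X, g • x = x) → g = 1)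
    (z : G) (y : X) (hz : z • y = y) (hzc : ∀ p : G, p * z = z * p) : z = 1 := by
  apply hfaith
  intro w
  obtain ⟨p, hp | hp⟩ := cover hX hP hι2 hιf hc horb y w
  · rw [hp, ← mul_smul, ← hzc p, mul_smul, hz]
  · rw [hp, ← hc, ← mul_smul, ← hzc p, mul_smul, hz]

/-- an element that fixes the base point and commutes with elements that reach everything. -/
theorem fix_of_cover (ι : Equiv.Perm X) (hc : ∀ (g : G) x, ι (g • x) = g • ι x)
    (hfaith : ∀ g : G, (∀ x : X, g • x = x) → g = 1)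
    (z t g : G) (x₀ : X) (hg : g • x₀ = x₀) (hgz : g * z = z * g) (hgt : g * t = t * g)
    (hcov : ∀ w : X, ∃ i j : ℕ, w = t ^ i • z ^ j • x₀ ∨ w = ι (t ^ i • z ^ j • x₀)) : g = 1 := by
  apply hfaith
  have hz' : ∀ j, g * z ^ j = z ^ j * g := fun j => (Commute.pow_right hgz j)
  have ht' : ∀ j, g * t ^ j = t ^ j * g := fun j => (Commute.pow_right hgt j)
  have key : ∀ i j : ℕ, g • t ^ i • z ^ j • x₀ = t ^ i • z ^ j • x₀ := by
    intro i j
    rw [← mul_smul, ht', mul_smul, ← mul_smul g, hz', mul_smul, hg]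
  intro w
  obtain ⟨i, j, h | h⟩ := hcov w
  · rw [h, key]
  · rw [h, ← hc, key]

theorem core (hX : Fintype.card X = 18) (hP : IsPGroup 3 G) {ι : Equiv.Perm X}
    (hι2 : ∀ x, ι (ι x) = x) (hιf : ∀ x, ι x ≠ x) (hc : ∀ (g : G) x, ι (g • x) = g • ι x)
    (horb : ∀ x : X, 9 ∣ Nat.card (orbit G x)) (hfaith : ∀ g : G, (∀ x : X, g • x = x) → g = 1)
    (x₀ : X) :
    ∃ (z t : G), z ^ 3 = 1 ∧ t * z = z * t ∧ (∃ a : Fin 3, t ^ 3 = z ^ (a : ℕ)) ∧
      Function.Bijective (fun q : Fin 3 × Fin 3 × Fin 2 =>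
        (ι ^ (q.2.2 : ℕ)) (t ^ (q.1 : ℕ) • z ^ (q.2.1 : ℕ) • x₀)) := by
  classical
  haveI : Fact (Nat.Prime 3) := ⟨Nat.prime_three⟩
  -- a central element of order three
  have hnt : Nontrivial G := by
    by_contra hcon
    rw [not_nontrivial_iff_subsingleton] at hcon
    have h9 := orbit_nine hX hP x₀ (horb x₀)
    haveI : Subsingleton (orbit G x₀) := by
      constructor
      rintro ⟨a, ga, rfl⟩ ⟨b, gb, rfl⟩
      rw [Subsingleton.elim ga gb]
    have := (Finite.card_le_one_iff_subsingleton (α := orbit G x₀)).2 inferInstance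
    omega
  have hcn : Nontrivial (Subgroup.center G) := hP.center_nontrivial
  have h3 : 3 ∣ Nat.card (Subgroup.center G) := by
    rcases (hP.to_subgroup (Subgroup.center G)).card_eq_or_dvd with h | h
    · have := (Finite.card_le_one_iff_subsingleton (α := Subgroup.center G)).1 h.le
      exact absurd hcn (not_nontrivial_iff_subsingleton.2 this)
    · exact h
  obtain ⟨zc, hzc⟩ := exists_prime_orderOf_dvd_card' 3 h3
  set z : G := (zc : G) with hzdef
  have hz3 : z ^ 3 = 1 := by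
    have : zc ^ 3 = 1 := by rw [← hzc]; exact pow_orderOf_eq_one zc
    have := congrArg (fun q : Subgroup.center G => (q : G)) this
    simpa using this
  have hz1 : z ≠ 1 := by
    intro h
    have : zc = 1 := Subtype.ext h
    rw [this, orderOf_one] at hzc
    omega
  have hzcomm : ∀ p : G, p * z = z * p := fun p => (Subgroup.mem_center_iff.1 zc.2 p)
  have hfree : ∀ y : X, z • y ≠ y := fun y hy =>
    hz1 (central_free hX hP hι2 hιf hc horb hfaith z y hy hzcomm)
  -- powers of z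
  have hzfree2 : ∀ y : X, z ^ 2 • y ≠ y := fun y hy => hfree y (odd_fix hP z y hy)
  -- an element t leaving the block
  have ht : ∃ t : G, ∀ j : ℕ, t • x₀ ≠ z ^ j • x₀ := by
    by_contra hcon
    push Not at hcon
    have hsub : ∀ y ∈ orbit G x₀, y ∈ (Finset.range 3).image
        (fun j => z ^ j • x₀) := by
      rintro y ⟨g, rfl⟩
      obtain ⟨j, hj⟩ := hcon g
      rw [Finset.mem_image]
      refine ⟨j % 3, Finset.mem_range.2 (Nat.mod_lt _ (by norm_num)), ?_⟩
      change z ^ (j % 3) • x₀ = g • x₀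
      rw [hj]
      congr 1
      conv_rhs => rw [← Nat.mod_add_div j 3, pow_add, pow_mul, hz3, one_pow, mul_one]
    have h9 := orbit_nine hX hP x₀ (horb x₀)
    have hle : Nat.card (orbit G x₀) ≤ 3 := by
      have hsub' : (orbit G x₀ : Set X) ⊆ (((Finset.range 3).image
        (fun j => z ^ j • x₀) : Finset X) : Set X) := fun y hy => hsub y hy
      have h1 := Set.ncard_le_ncard hsub' (Finset.finite_toSet _)
      rw [Set.ncard_coe_finset] at h1
      have h2 := Finset.card_image_le (s := Finset.range 3) (f := fun j => z ^ j • x₀)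
      rw [Finset.card_range] at h2
      have h3' : Nat.card (orbit G x₀) = Set.ncard (orbit G x₀) := rfl
      omega
    omega
  obtain ⟨t, ht⟩ := ht
  have htz : t * z = z * t := hzcomm t
  have htzp : ∀ i j : ℕ, t ^ i * z ^ j = z ^ j * t ^ i := fun i j =>
    (Commute.pow_pow (show Commute t z from htz) i j)
  have ht2 : ∀ j : ℕ, t ^ 2 • x₀ ≠ z ^ j • x₀ := by
    intro j hj
    obtain ⟨m, hm⟩ := odd_pow hP t
    have h2 : ∀ l : ℕ, ((t ^ 2) ^ l) • x₀ = (z ^ (j * l)) • x₀ := by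
      intro l
      induction l with
      | zero => simp
      | succ l ih =>
        rw [pow_succ, mul_smul, hj, ← mul_smul, ← pow_mul, htzp, mul_smul, pow_mul, ih,
          ← mul_smul, ← pow_add]
        congr 2
        ring
    apply ht (j * m)
    conv_lhs => rw [hm]
    exact h2 m
  have hdiff : ∀ d : ℕ, d = 1 ∨ d = 2 → ∀ j : ℕ, t ^ d • x₀ ≠ z ^ j • x₀ := by
    rintro d (rfl | rfl) j
    · rw [pow_one]; exact ht j
    · exact ht2 j
  have hzd : ∀ d : ℕ, d = 1 ∨ d = 2 → z ^ d • x₀ ≠ x₀ := by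
    rintro d (rfl | rfl)
    · rw [pow_one]; exact hfree x₀
    · exact hzfree2 x₀
  have hsame : ∀ i i' j j' : ℕ, i < 3 → i' < 3 → j < 3 → j' < 3 →
      i ≤ i' → t ^ i • z ^ j • x₀ = t ^ i' • z ^ j' • x₀ → i = i' ∧ j = j' := by
    intro i i' j j' hi hi' hj hj' hle h
    obtain ⟨d, rfl⟩ := Nat.exists_eq_add_of_le hle
    rw [pow_add, mul_smul] at h
    have h1 : z ^ j • x₀ = t ^ d • z ^ j' • x₀ := smul_left_cancel _ h
    have h2 : t ^ d • x₀ = z ^ (2 * j' + j) • x₀ := by
      have e1 : z ^ (2 * j') • z ^ j' • t ^ d • x₀ = t ^ d • x₀ := by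
        rw [← mul_smul, ← pow_add]
        have : 2 * j' + j' = 3 * j' := by ring
        rw [this, pow_mul, hz3, one_pow, one_smul]
      rw [← e1, ← mul_smul (z ^ j'), ← htzp, mul_smul, ← h1, ← mul_smul, ← pow_add]
    have hd0 : d = 0 := by
      by_contra hd
      exact hdiff d (by omega) _ h2
    subst hd0
    refine ⟨by omega, ?_⟩
    rw [pow_zero, one_smul] at h1
    rcases Nat.lt_trichotomy j j' with hlt | heq | hgt
    · exfalso
      obtain ⟨e, rfl⟩ := Nat.exists_eq_add_of_le hlt.le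
      rw [pow_add, mul_smul] at h1
      exact hzd e (by omega) (smul_left_cancel _ h1).symm
    · exact heq
    · exfalso
      obtain ⟨e, rfl⟩ := Nat.exists_eq_add_of_le hgt.le
      rw [pow_add, mul_smul] at h1
      exact hzd e (by omega) (smul_left_cancel _ h1)
  have hsame' : ∀ i i' j j' : ℕ, i < 3 → i' < 3 → j < 3 → j' < 3 →
      t ^ i • z ^ j • x₀ = t ^ i' • z ^ j' • x₀ → i = i' ∧ j = j' := by
    intro i i' j j' hi hi' hj hj' h
    rcases le_total i i' with hle | hle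
    · exact hsame i i' j j' hi hi' hj hj' hle h
    · obtain ⟨h1, h2⟩ := hsame i' i j' j hi' hi hj' hj hle h.symm
      exact ⟨h1.symm, h2.symm⟩
  have hcross : ∀ p q : G, p • x₀ ≠ ι (q • x₀) := by
    intro p q h
    refine no_anti hP hι2 hιf hc (q⁻¹ * p) x₀ ?_
    rw [mul_smul, h, hc, inv_smul_smul]
  have hbij : Function.Bijective (fun q : Fin 3 × Fin 3 × Fin 2 =>
        (ι ^ (q.2.2 : ℕ)) (t ^ (q.1 : ℕ) • z ^ (q.2.1 : ℕ) • x₀)) := by
    rw [Fintype.bijective_iff_injective_and_card]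
    refine ⟨?_, by simp [hX]⟩
    rintro ⟨i, j, s⟩ ⟨i', j', s'⟩ h
    have h' : (ι ^ (s : ℕ)) (t ^ (i : ℕ) • z ^ (j : ℕ) • x₀)
        = (ι ^ (s' : ℕ)) (t ^ (i' : ℕ) • z ^ (j' : ℕ) • x₀) := h
    have hs : s = s' ∧ t ^ (i : ℕ) • z ^ (j : ℕ) • x₀ = t ^ (i' : ℕ) • z ^ (j' : ℕ) • x₀ := by
      fin_cases s <;> fin_cases s'
      · exact ⟨rfl, by simpa using h'⟩
      · exfalso
        simp only [Fin.zero_eta, Fin.val_zero, pow_zero, Equiv.Perm.coe_one, id_eq, Fin.mk_one,
          Fin.val_one, pow_one] at h'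
        rw [← mul_smul, ← mul_smul] at h'
        exact hcross _ _ h'
      · exfalso
        simp only [Fin.zero_eta, Fin.val_zero, pow_zero, Equiv.Perm.coe_one, id_eq, Fin.mk_one,
          Fin.val_one, pow_one] at h'
        rw [← mul_smul, ← mul_smul] at h'
        exact hcross _ _ h'.symm
      · exact ⟨rfl, by simpa using h'⟩
    obtain ⟨hs, h2⟩ := hs
    obtain ⟨h3, h4⟩ := hsame' i i' j j' i.2 i'.2 j.2 j'.2 h2
    rw [Prod.mk.injEq, Prod.mk.injEq]
    exact ⟨Fin.ext h3, Fin.ext h4, hs⟩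
  refine ⟨z, t, hz3, htz, ?_, hbij⟩
  obtain ⟨⟨i, j, s⟩, hq⟩ := hbij.2 (t ^ 3 • x₀)
  have hq' : (ι ^ (s : ℕ)) (t ^ (i : ℕ) • z ^ (j : ℕ) • x₀) = t ^ 3 • x₀ := hq
  have hs0 : t ^ (i : ℕ) • z ^ (j : ℕ) • x₀ = t ^ 3 • x₀ := by
    fin_cases s
    · simpa using hq'
    · exfalso
      simp only [Fin.mk_one, Fin.val_one, pow_one] at hq'
      rw [← mul_smul] at hq'
      exact hcross _ _ hq'.symm
  -- t ^ (3 - i) x₀ = z ^ j x₀
  have h3i : t ^ (3 - (i : ℕ)) • x₀ = z ^ (j : ℕ) • x₀ := by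
    have hsplit : t ^ 3 = t ^ (i : ℕ) * t ^ (3 - (i : ℕ)) := by
      rw [← pow_add]
      congr 1
      omega
    rw [hsplit, mul_smul] at hs0
    exact (smul_left_cancel _ hs0).symm
  have hi0 : (i : ℕ) = 0 := by
    by_contra hne
    exact hdiff (3 - (i : ℕ)) (by omega) _ h3i
  rw [hi0, Nat.sub_zero] at h3i
  refine ⟨j, ?_⟩
  have hg : ((z ^ (j : ℕ))⁻¹ * t ^ 3) • x₀ = x₀ := by
    rw [mul_smul, h3i, inv_smul_smul]
  have hone := fix_of_cover ι hc hfaith z t ((z ^ (j : ℕ))⁻¹ * t ^ 3) x₀ hg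
    (hzcomm _) (by
      have c1 : Commute (t ^ 3) t := (Commute.refl t).pow_left 3
      have c2 : Commute (z ^ (j : ℕ)) t := (show Commute z t from htz.symm).pow_left _
      exact (c2.inv_left.mul_left c1)) (by
      intro w
      obtain ⟨⟨a, b, s⟩, hw⟩ := hbij.2 w
      refine ⟨a, b, ?_⟩
      have hw' : (ι ^ (s : ℕ)) (t ^ (a : ℕ) • z ^ (b : ℕ) • x₀) = w := hw
      fin_cases s
      · left
        rw [← hw']
        simp
      · right
        rw [← hw']
        simp)
  rw [inv_mul_eq_one] at hone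
  exact hone.symm

end Pool.Agent.H53.AEG
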